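import Mathlib
import Pool.Agent.SmallMod59.Frame

/-!
# Amplification by Dickson polynomials

For a prime `l ≥ 5` the Dickson polynomial `D_l` (`D_l(z + 1/z) = z^l + 1/z^l`) satisfies
`D_l(t) ∓ 1 = (t ∓ 1) Ψ`, where all prime factors of `Ψ` are `± 1 mod 6 l`.
-/

set_option autoImplicit false

namespace Pool.Agent.Amplify59

open Polynomial

/-- values of the Dickson polynomials -/
noncomputable def D (n : ℕ) (t : ℤ) : ℤ := (dickson 1 (1 : ℤ) n).eval t

theorem D_zero (t : ℤ) : D 0 t = 2 := by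
  simp [D, dickson_zero]

theorem D_one (t : ℤ) : D 1 t = t := by
  simp [D, dickson_one]

theorem D_add_two (n : ℕ) (t : ℤ) : D (n + 2) t = t * D (n + 1) t - D n t := by
  simp [D, dickson_add_two]

theorem D_odd_dvd (t : ℤ) (m : ℕ) : t ∣ D (2 * m + 1) t := by
  induction m with
  | zero => simp [D_one]
  | succ m ih =>
    have : D (2 * (m + 1) + 1) t = t * D (2 * m + 1 + 1) t - D (2 * m + 1) t := by
      rw [show 2 * (m + 1) + 1 = 2 * m + 1 + 2 by ring, D_add_two]
    rw [this]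
    exact dvd_sub (dvd_mul_right _ _) ih

theorem D_neg (t : ℤ) (n : ℕ) : D n (-t) = (-1) ^ n * D n t ∧
    D (n + 1) (-t) = (-1) ^ (n + 1) * D (n + 1) t := by
  induction n with
  | zero => simp [D_zero, D_one]
  | succ n ih =>
    refine ⟨ih.2, ?_⟩
    rw [D_add_two, D_add_two, ih.1, ih.2]
    ring

theorem D_grow (t : ℤ) (ht : 3 ≤ t) (n : ℕ) : 2 ≤ D n t ∧ D n t < D (n + 1) t := by
  induction n with
  | zero => rw [D_zero, D_one]; constructor <;> linarith
  | succ n ih =>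
    refine ⟨by linarith [ih.1, ih.2], ?_⟩
    rw [D_add_two]
    nlinarith [ih.1, ih.2]

theorem D_gt (t : ℤ) (ht : 3 ≤ t) (n : ℕ) : t < D (n + 2) t := by
  induction n with
  | zero => have := (D_grow t ht 1).2; rwa [D_one] at this
  | succ n ih => exact ih.trans (D_grow t ht (n + 2)).2

theorem D_cast {F : Type*} [Field F] (n : ℕ) (t : ℤ) (z : F) (hz : z ≠ 0)
    (ht : (t : F) = z + z⁻¹) : ((D n t : ℤ) : F) = z ^ n + (z⁻¹) ^ n := by
  have h := dickson_one_one_eval_add_inv z z⁻¹ (mul_inv_cancel₀ hz) n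
  rw [← h, ← ht]
  have h2 : (dickson 1 (1 : F) n) = (dickson 1 (1 : ℤ) n).map (Int.castRingHom F) := by
    rw [map_dickson]; simp
  rw [h2, eval_map, D]
  rw [show (t : F) = (Int.castRingHom F) t by simp, eval₂_at_apply]
  simp

/-- main lemma, for the sign `+` and over an algebraically closed field -/
theorem key_aux (F : Type) [Field F] [IsAlgClosed F] (l : ℕ) (hl : l.Prime) (h5 : 5 ≤ l)
    (t : ℤ) (p : ℕ) [CharP F p] (hp : p.Prime) (hp2 : p ≠ 2) (hp3 : p ≠ 3)
    (h : (p : ℤ) ∣ D l t - 1) :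
    (p : ℤ) ∣ t - 1 ∨ 6 * l ∣ p - 1 ∨ 6 * l ∣ p + 1 := by
  have : Fact p.Prime := ⟨hp⟩
  obtain ⟨z, hz⟩ : ∃ z : F, z ^ 2 - (t : F) * z + 1 = 0 := by
    have hdeg : (Polynomial.X ^ 2 - Polynomial.C (t : F) * Polynomial.X + 1 :
        Polynomial F).degree ≠ 0 := by
      have : (Polynomial.X ^ 2 - Polynomial.C (t : F) * Polynomial.X + 1 :
        Polynomial F) = Polynomial.C 1 * Polynomial.X ^ 2 + Polynomial.C (-(t : F)) * Polynomial.X +
          Polynomial.C 1 := by
        simp; ring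
      rw [this, Polynomial.degree_quadratic one_ne_zero]
      decide
    obtain ⟨z, hz⟩ := IsAlgClosed.exists_root _ hdeg
    refine ⟨z, ?_⟩
    simpa [Polynomial.IsRoot] using hz
  have hz0 : z ≠ 0 := by
    rintro rfl
    simp at hz
  have ht : (t : F) = z + z⁻¹ := by
    field_simp
    linear_combination -hz
  have h2F : (2 : F) ≠ 0 := by
    intro h2
    have : ((2 : ℕ) : F) = 0 := by exact_mod_cast h2
    rw [CharP.cast_eq_zero_iff F p] at this
    exact hp2 ((Nat.prime_dvd_prime_iff_eq hp Nat.prime_two).1 this)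
  have h3F : (3 : F) ≠ 0 := by
    intro h3
    have : ((3 : ℕ) : F) = 0 := by exact_mod_cast h3
    rw [CharP.cast_eq_zero_iff F p] at this
    exact hp3 ((Nat.prime_dvd_prime_iff_eq hp Nat.prime_three).1 this)
  set w : F := z ^ l with hw
  have hw0 : w ≠ 0 := pow_ne_zero _ hz0
  have hw1 : w + w⁻¹ = 1 := by
    have h1 : ((D l t - 1 : ℤ) : F) = 0 := (CharP.intCast_eq_zero_iff F p _).2 h
    rw [Int.cast_sub, D_cast l t z hz0 ht, inv_pow, ← hw, Int.cast_one] at h1
    exact sub_eq_zero.1 h1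
  have hw2 : w ^ 2 - w + 1 = 0 := by
    have e : (w + w⁻¹) * w = w ^ 2 + 1 := by field_simp
    rw [hw1] at e
    linear_combination -e
  have hw3 : w ^ 3 = -1 := by linear_combination (w + 1) * hw2
  have hw6 : w ^ 6 = 1 := by
    rw [show (6 : ℕ) = 3 * 2 by norm_num, pow_mul, hw3]; norm_num
  have hord : orderOf w = 6 := by
    apply orderOf_eq_of_pow_and_pow_div_prime (by norm_num) hw6
    intro q hq hq6
    have hq' : q = 2 ∨ q = 3 := by
      have : q ∣ 2 * 3 := by simpa using hq6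
      rcases (Nat.Prime.dvd_mul hq).1 this with h | h
      · left; exact (Nat.prime_dvd_prime_iff_eq hq Nat.prime_two).1 h
      · right; exact (Nat.prime_dvd_prime_iff_eq hq Nat.prime_three).1 h
    rcases hq' with rfl | rfl
    · norm_num
      rw [hw3]
      intro h1
      apply h2F
      linear_combination -h1
    · intro h1
      rw [show 6 / 3 = 2 by norm_num] at h1
      apply h3F
      have h4 : w = 2 := by linear_combination h1 - hw2
      rw [h4] at h1
      linear_combination h1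
  -- order of `z`
  have hordz : orderOf w = orderOf z / Nat.gcd (orderOf z) l := by
    rw [hw]; exact orderOf_pow' z hl.ne_zero
  rw [hord] at hordz
  have hg : Nat.gcd (orderOf z) l = 1 ∨ Nat.gcd (orderOf z) l = l :=
    (Nat.dvd_prime hl).1 (Nat.gcd_dvd_right _ _)
  -- Frobenius
  have hzp : z ^ p = z ∨ z ^ p = z⁻¹ := by
    have h1 : z ^ p + (z ^ p)⁻¹ = z + z⁻¹ := by
      have h2 : (z + z⁻¹) ^ p = z ^ p + (z⁻¹) ^ p := add_pow_char z z⁻¹ p
      have h3 : ((t : F)) ^ p = (t : F) := by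
        have h4 : (p : ℤ) ∣ t ^ p - t := by
          rw [← ZMod.intCast_zmod_eq_zero_iff_dvd]
          push_cast
          rw [ZMod.pow_card, sub_self]
        have h5 : ((t ^ p - t : ℤ) : F) = 0 := (CharP.intCast_eq_zero_iff F p _).2 h4
        push_cast at h5
        exact sub_eq_zero.1 h5
      rw [← inv_pow, ← h2, ← ht, h3]
    have hzp0 : z ^ p ≠ 0 := pow_ne_zero _ hz0
    have h5 : (z ^ p - z) * (z ^ p - z⁻¹) = 0 := by
      have h6 : (z ^ p) ^ 2 + 1 = (z + z⁻¹) * z ^ p := by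
        rw [← h1]; field_simp
      have h7 : z * z⁻¹ = 1 := mul_inv_cancel₀ hz0
      linear_combination h6 + h7
    rcases mul_eq_zero.1 h5 with h | h
    · left; exact sub_eq_zero.1 h
    · right; exact sub_eq_zero.1 h
  rcases hg with hg | hg
  · -- order `6`
    left
    rw [hg, Nat.div_one] at hordz
    have hz6 : z ^ 6 = 1 := by rw [hordz]; exact pow_orderOf_eq_one z
    have hl6 : l % 6 = 1 ∨ l % 6 = 5 := by
      have h2 : ¬ 2 ∣ l := fun h => by
        have := (Nat.prime_dvd_prime_iff_eq Nat.prime_two hl).1 h; omega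
      have h3 : ¬ 3 ∣ l := fun h => by
        have := (Nat.prime_dvd_prime_iff_eq Nat.prime_three hl).1 h; omega
      omega
    have hzl : z ^ l = z ^ (l % 6) := by
      conv_lhs => rw [← Nat.div_add_mod l 6, pow_add, pow_mul, hz6, one_pow, one_mul]
    have htt : (t : F) = 1 := by
      rw [ht, ← hw1, hw, hzl]
      rcases hl6 with h | h
      · rw [h, pow_one]
      · rw [h]
        have e : z ^ 5 = z⁻¹ := by
          field_simp
          exact hz6
        rw [e, inv_inv, add_comm]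
    have : ((t - 1 : ℤ) : F) = 0 := by push_cast; rw [htt]; ring
    exact (CharP.intCast_eq_zero_iff F p _).1 this
  · right
    rw [hg] at hordz
    have hln : l ∣ orderOf z := by rw [← hg]; exact Nat.gcd_dvd_left _ _
    have hn : orderOf z = 6 * l := by
      obtain ⟨c, hc⟩ := hln
      rw [hc, Nat.mul_div_cancel_left c hl.pos] at hordz
      rw [hc, ← hordz]; ring
    rw [← hn]
    rcases hzp with h | h
    · left
      apply orderOf_dvd_of_pow_eq_one
      have h1 : z ^ (p - 1) * z = z := by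
        rw [← pow_succ, Nat.sub_add_cancel hp.one_lt.le, h]
      exact mul_right_cancel₀ hz0 (by rw [h1, one_mul])
    · right
      apply orderOf_dvd_of_pow_eq_one
      rw [pow_succ, h, inv_mul_cancel₀ hz0]

theorem key_plus (l : ℕ) (hl : l.Prime) (h5 : 5 ≤ l)
    (t : ℤ) (p : ℕ) (hp : p.Prime) (hp2 : p ≠ 2) (hp3 : p ≠ 3)
    (h : (p : ℤ) ∣ D l t - 1) :
    (p : ℤ) ∣ t - 1 ∨ 6 * l ∣ p - 1 ∨ 6 * l ∣ p + 1 := by
  have : Fact p.Prime := ⟨hp⟩
  exact key_aux (AlgebraicClosure (ZMod p)) l hl h5 t p hp hp2 hp3 h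

/-- main lemma, both signs -/
theorem key (l : ℕ) (hl : l.Prime) (h5 : 5 ≤ l)
    (t : ℤ) (p : ℕ) (hp : p.Prime) (hp2 : p ≠ 2) (hp3 : p ≠ 3)
    (h : (p : ℤ) ∣ (D l t) ^ 2 - 1) :
    (p : ℤ) ∣ t ^ 2 - 1 ∨ 6 * l ∣ p - 1 ∨ 6 * l ∣ p + 1 := by
  have hodd : Odd l := hl.odd_of_ne_two (by omega)
  have e : (D l t) ^ 2 - 1 = (D l t - 1) * (D l t + 1) := by ring
  rw [e] at h
  rcases (Nat.prime_iff_prime_int.1 hp).dvd_or_dvd h with h | h
  · rcases key_plus l hl h5 t p hp hp2 hp3 h with h' | h'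
    · left
      have : t ^ 2 - 1 = (t - 1) * (t + 1) := by ring
      rw [this]; exact h'.mul_right _
    · right; exact h'
  · have h2 : (p : ℤ) ∣ D l (-t) - 1 := by
      rw [(D_neg t l).1, hodd.neg_one_pow]
      have : -1 * D l t - 1 = -(D l t + 1) := by ring
      rw [this]; exact (dvd_neg).2 h
    rcases key_plus l hl h5 (-t) p hp hp2 hp3 h2 with h' | h'
    · left
      have : t ^ 2 - 1 = (-t - 1) * (-t + 1) := by ring
      rw [this]; exact h'.mul_right _
    · right; exact h'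

/-- all prime factors of `t^2 - 1` are `± 1 mod 6 l` or in `E` -/
def OK (l : ℕ) (E : Finset ℕ) (t : ℤ) : Prop :=
  ∀ p : ℕ, p.Prime → (p : ℤ) ∣ t ^ 2 - 1 → p ∈ E ∨ 6 * l ∣ p - 1 ∨ 6 * l ∣ p + 1

theorem step (l : ℕ) (hl : l.Prime) (h5 : 5 ≤ l) (E : Finset ℕ) (t g : ℤ) (ht : 3 ≤ t)
    (hg : 6 ∣ g) (hgt : g ∣ t) (h : OK l E t) :
    g ∣ D l t ∧ OK l E (D l t) ∧ t < D l t := by
  have hodd : Odd l := hl.odd_of_ne_two (by omega)
  have hdv : t ∣ D l t := by
    obtain ⟨m, hm⟩ := hodd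
    rw [hm]; exact D_odd_dvd t m
  refine ⟨hgt.trans hdv, ?_, ?_⟩
  · intro p hp hpd
    have h6 : (6 : ℤ) ∣ D l t := (hg.trans hgt).trans hdv
    have hcop : ∀ q : ℕ, q.Prime → (q : ℤ) ∣ 6 → p ≠ q := by
      rintro q hq hq6 rfl
      have h1 : (p : ℤ) ∣ (D l t) ^ 2 := (hq6.trans h6).trans (dvd_pow_self _ (by norm_num))
      have h2 : (p : ℤ) ∣ 1 := by
        have := dvd_sub h1 hpd
        simpa using this
      have h3 : p ∣ 1 := by exact_mod_cast h2
      exact hp.one_lt.ne' (Nat.dvd_one.1 h3)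
    rcases key l hl h5 t p hp (hcop 2 Nat.prime_two ⟨3, by norm_num⟩)
      (hcop 3 Nat.prime_three ⟨2, by norm_num⟩) hpd with h' | h'
    · exact h p hp h'
    · exact Or.inr h'
  · obtain ⟨m, hm⟩ : ∃ m, l = m + 2 := ⟨l - 2, by omega⟩
    rw [hm]; exact D_gt t ht m

/-- one good value gives infinitely many -/
theorem many (l : ℕ) (hl : l.Prime) (h5 : 5 ≤ l) (E : Finset ℕ) (t g : ℤ) (ht : 3 ≤ t)
    (hg : 6 ∣ g) (hgt : g ∣ t) (h : OK l E t) (N : ℕ) :
    ∃ X : ℤ, (N : ℤ) ≤ X ∧ 3 ≤ X ∧ g ∣ X ∧ OK l E X := by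
  induction N with
  | zero => exact ⟨t, by push_cast; linarith, ht, hgt, h⟩
  | succ N ih =>
    obtain ⟨X, h1, h2, h3, h4⟩ := ih
    obtain ⟨h5', h6, h7⟩ := step l hl h5 E X g h2 hg h3 h4
    exact ⟨D l X, by push_cast; linarith, by linarith, h5', h6⟩

end Pool.Agent.Amplify59
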