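import Mathlib
import Pool.Agent.Amplify59.Core

set_option autoImplicit false

namespace Pool.Agent.Amplify59

open Pool.Agent.SmallMod59

/-- `n = 6xy ± x ± y`, with independent signs -/
def Rep (n : ℕ) (x y : ℤ) : Prop :=
  (n : ℤ) = 6 * x * y + x + y ∨ (n : ℤ) = 6 * x * y + x - y ∨
    (n : ℤ) = 6 * x * y - x + y ∨ (n : ℤ) = 6 * x * y - x - y

theorem mod_of_dvd (M p : ℕ) (hM : 1 < M) (hp : 0 < p) (h : M ∣ p - 1 ∨ M ∣ p + 1) :
    p % M = 1 ∨ p % M = M - 1 := by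
  rcases h with ⟨c, hc⟩ | ⟨c, hc⟩
  · left
    have : p = 1 + M * c := by omega
    rw [this, Nat.add_mul_mod_self_left, Nat.mod_eq_of_lt hM]
  · right
    have hc0 : 0 < c := by
      rcases Nat.eq_zero_or_pos c with h | h
      · rw [h] at hc; omega
      · exact h
    obtain ⟨e, rfl⟩ : ∃ e, c = e + 1 := ⟨c - 1, by omega⟩
    have : p = (M - 1) + M * e := by
      have h1 : M * (e + 1) = M * e + M := by ring
      omega
    rw [this, Nat.add_mul_mod_self_left, Nat.mod_eq_of_lt (by omega)]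

/-- one factor of a representation -/
theorem rep_of_ok_aux (l : ℕ) (hl : 0 < l) (E : Finset ℕ) (n : ℕ) (h : OK l E (6 * (n : ℤ)))
    (y τ c σ : ℤ) (hy : 1 ≤ y) (hτ : τ = 1 ∨ τ = -1) (hσ : σ = 1 ∨ σ = -1)
    (heq : 6 * (n : ℤ) + σ = (6 * y + τ) * c) :
    (l : ℤ) ∣ y ∨ ∃ p ∈ E, (p : ℤ) ∣ 36 * y ^ 2 - 1 := by
  by_contra hcon
  push Not at hcon
  obtain ⟨hly, hE⟩ := hcon
  apply hly
  have hdpos : 4 < 6 * y + τ := by rcases hτ with rfl | rfl <;> linarith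
  obtain ⟨d, hd⟩ := Int.eq_ofNat_of_zero_le (by linarith : 0 ≤ 6 * y + τ)
  rw [hd] at hdpos heq
  have hd0 : 0 < d := by
    have : (0 : ℤ) < (d : ℤ) := by linarith
    exact_mod_cast this
  have hpd : ∀ p : ℕ, p.Prime → p ∣ d → (p % (6 * l) = 1 ∨ p % (6 * l) = 6 * l - 1) := by
    intro p hp hpd
    apply mod_of_dvd _ _ (by omega) hp.pos
    have h1 : (p : ℤ) ∣ 6 * (n : ℤ) + σ := by
      rw [heq]; exact (Int.natCast_dvd_natCast.mpr hpd).mul_right _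
    have h2 : (p : ℤ) ∣ (6 * (n : ℤ)) ^ 2 - 1 := by
      have e : (6 * (n : ℤ)) ^ 2 - 1 = (6 * (n : ℤ) + σ) * (6 * (n : ℤ) - σ) := by
        rcases hσ with rfl | rfl <;> ring
      rw [e]; exact h1.mul_right _
    rcases h p hp h2 with h3 | h3
    · exfalso
      apply hE p h3
      have e : 36 * y ^ 2 - 1 = (6 * y + τ) * (6 * y - τ) := by
        rcases hτ with rfl | rfl <;> ring
      rw [e, hd]
      exact (Int.natCast_dvd_natCast.mpr hpd).mul_right _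
    · exact h3
  have := pm_of_primes (6 * l) (by omega) d hd0 hpd
  rw [← hd] at this
  push_cast at this
  rcases this with ⟨a, ha⟩ | ⟨a, ha⟩
  · have e1 : 6 * y + τ - 1 = 6 * (l * a) := by rw [ha]; ring
    rcases hτ with rfl | rfl
    · exact ⟨a, by linarith⟩
    · exfalso
      generalize (l : ℤ) * a = t at e1
      omega
  · have e1 : 6 * y + τ + 1 = 6 * (l * a) := by rw [ha]; ring
    rcases hτ with rfl | rfl
    · exfalso
      generalize (l : ℤ) * a = t at e1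
      omega
    · exact ⟨a, by linarith⟩

theorem rep_of_ok (l : ℕ) (hl : 0 < l) (E : Finset ℕ) (n : ℕ) (h : OK l E (6 * (n : ℤ)))
    (x y : ℤ) (hx : 1 ≤ x) (hy : 1 ≤ y) (hrep : Rep n x y) :
    ((l : ℤ) ∣ x ∨ ∃ p ∈ E, (p : ℤ) ∣ 36 * x ^ 2 - 1) ∧
    ((l : ℤ) ∣ y ∨ ∃ p ∈ E, (p : ℤ) ∣ 36 * y ^ 2 - 1) := by
  have main : ∀ τ₁ τ₂ : ℤ, (τ₁ = 1 ∨ τ₁ = -1) → (τ₂ = 1 ∨ τ₂ = -1) →
      6 * (n : ℤ) + τ₁ * τ₂ = (6 * x + τ₁) * (6 * y + τ₂) →
      ((l : ℤ) ∣ x ∨ ∃ p ∈ E, (p : ℤ) ∣ 36 * x ^ 2 - 1) ∧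
      ((l : ℤ) ∣ y ∨ ∃ p ∈ E, (p : ℤ) ∣ 36 * y ^ 2 - 1) := by
    intro τ₁ τ₂ h1 h2 heq
    have hσ : τ₁ * τ₂ = 1 ∨ τ₁ * τ₂ = -1 := by
      rcases h1 with rfl | rfl <;> rcases h2 with rfl | rfl <;> norm_num
    exact ⟨rep_of_ok_aux l hl E n h x τ₁ (6 * y + τ₂) (τ₁ * τ₂) hx h1 hσ heq,
      rep_of_ok_aux l hl E n h y τ₂ (6 * x + τ₁) (τ₁ * τ₂) hy h2 hσ (by rw [heq]; ring)⟩
  rcases hrep with h | h | h | h
  · exact main 1 1 (Or.inl rfl) (Or.inl rfl) (by rw [h]; ring)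
  · exact main (-1) 1 (Or.inr rfl) (Or.inl rfl) (by rw [h]; ring)
  · exact main 1 (-1) (Or.inl rfl) (Or.inr rfl) (by rw [h]; ring)
  · exact main (-1) (-1) (Or.inr rfl) (Or.inr rfl) (by rw [h]; ring)

theorem unit_six (c : ℕ) (h2 : ¬ 2 ∣ c) (h3 : ¬ 3 ∣ c) :
    ∃ (v : ℕ) (δ : ℤ), (δ = 1 ∨ δ = -1) ∧ (c : ℤ) = 6 * v + δ := by
  have h : c % 6 = 1 ∨ c % 6 = 5 := by omega
  rcases h with h | h
  · exact ⟨c / 6, 1, Or.inl rfl, by omega⟩
  · exact ⟨c / 6 + 1, -1, Or.inr rfl, by omega⟩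

/-- from representations to prime factors -/
theorem ok_of_rep (l : ℕ) (n : ℕ) (hn : 0 < n) (hln : l ∣ n)
    (h : ∀ x y : ℤ, 1 ≤ x → 1 ≤ y → Rep n x y → (l : ℤ) ∣ x ∧ (l : ℤ) ∣ y) :
    OK l ∅ (6 * (n : ℤ)) := by
  intro p hp hpd
  right
  have e : (6 * (n : ℤ)) ^ 2 - 1 = (6 * (n : ℤ) - 1) * (6 * (n : ℤ) + 1) := by ring
  rw [e] at hpd
  have hcase : ∃ σ : ℤ, (σ = 1 ∨ σ = -1) ∧ (p : ℤ) ∣ 6 * n + σ := by
    rcases (Nat.prime_iff_prime_int.1 hp).dvd_or_dvd hpd with h | h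
    · exact ⟨-1, Or.inr rfl, by simpa [sub_eq_add_neg] using h⟩
    · exact ⟨1, Or.inl rfl, h⟩
  obtain ⟨σ, hσ, hpσ⟩ := hcase
  have hq : ∀ q : ℕ, (q = 2 ∨ q = 3) → ∀ d : ℕ, (d : ℤ) ∣ 6 * n + σ → ¬ q ∣ d := by
    intro q hq d hd hqd
    have h1 : (q : ℤ) ∣ 6 * n + σ := (Int.natCast_dvd_natCast.mpr hqd).trans hd
    rcases hq with rfl | rfl <;> rcases hσ with rfl | rfl <;> push_cast at h1 <;> omega
  obtain ⟨c, hc⟩ := hpσ
  have hpos : (0 : ℤ) < 6 * n + σ := by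
    have : (1 : ℤ) ≤ n := by exact_mod_cast hn
    rcases hσ with rfl | rfl <;> linarith
  have hcpos : 0 < c := by
    rw [hc] at hpos
    have : (0 : ℤ) < p := by exact_mod_cast hp.pos
    exact (mul_pos_iff_of_pos_left this).1 hpos
  obtain ⟨c, rfl⟩ := Int.eq_ofNat_of_zero_le hcpos.le
  obtain ⟨u, ε, hε, hu⟩ := unit_six p (hq 2 (Or.inl rfl) p ⟨_, hc⟩) (hq 3 (Or.inr rfl) p ⟨_, hc⟩)
  obtain ⟨v, δ, hδ, hv⟩ := unit_six c (hq 2 (Or.inl rfl) c ⟨p, by rw [hc]; ring⟩)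
    (hq 3 (Or.inr rfl) c ⟨p, by rw [hc]; ring⟩)
  have hp1 : 1 < p := hp.one_lt
  by_cases hc1 : c = 1
  · -- `6 n + σ = p`
    subst hc1
    obtain ⟨m, hm⟩ := hln
    have e1 : (p : ℤ) = 6 * (l * m) + σ := by rw [← Nat.cast_mul, ← hm]; push_cast at hc; linarith
    rcases hσ with rfl | rfl
    · left
      refine ⟨m, ?_⟩
      zify [hp.one_lt.le]
      linarith
    · right
      refine ⟨m, ?_⟩
      zify
      linarith
  · have hu1 : 1 ≤ (u : ℤ) := by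
      have hpz : (1 : ℤ) < p := by exact_mod_cast hp1
      rcases hε with rfl | rfl <;> omega
    have hv1 : 1 ≤ (v : ℤ) := by
      have hcz : (c : ℤ) ≠ 1 := by exact_mod_cast hc1
      rcases hδ with rfl | rfl <;> omega
    have heq : 6 * (n : ℤ) + σ = (6 * u + ε) * (6 * v + δ) := by
      rw [hc, hu, show ((c : ℕ) : ℤ) = 6 * v + δ from hv]
    have hrep : Rep n u v := by
      unfold Rep
      have hσ' : σ = ε * δ := by
        have h6 : (6 : ℤ) ∣ σ - ε * δ := ⟨6 * u * v + u * δ + v * ε - n, by linear_combination heq⟩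
        rcases hσ with rfl | rfl <;> rcases hε with rfl | rfl <;> rcases hδ with rfl | rfl <;>
          omega
      have h7 : (n : ℤ) = 6 * u * v + δ * u + ε * v := by
        rw [hσ'] at heq
        have : 6 * (n : ℤ) = 6 * (6 * u * v + δ * u + ε * v) := by linear_combination heq
        linarith
      rcases hε with rfl | rfl <;> rcases hδ with rfl | rfl
      · left; linarith
      · right; right; left; linarith
      · right; left; linarith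
      · right; right; right; linarith
    obtain ⟨⟨a, ha⟩, -⟩ := h u v hu1 hv1 hrep
    have e1 : (p : ℤ) = 6 * (l * a) + ε := by rw [← ha]; exact hu
    have ha0 : 0 ≤ a := by
      by_contra hneg
      push Not at hneg
      have : (u : ℤ) ≤ 0 := by
        rw [ha]; exact mul_nonpos_of_nonneg_of_nonpos (by positivity) hneg.le
      linarith
    obtain ⟨a, rfl⟩ := Int.eq_ofNat_of_zero_le ha0
    rcases hε with rfl | rfl
    · left
      refine ⟨a, ?_⟩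
      zify [hp.one_lt.le]
      linarith
    · right
      refine ⟨a, ?_⟩
      zify
      linarith

/-- the amplification, in terms of representations -/
theorem infinite_of_ok (l : ℕ) (hl : l.Prime) (h5 : 5 ≤ l) (E : Finset ℕ) (t : ℤ) (ht : 3 ≤ t)
    (hlt : (6 * l : ℤ) ∣ t) (h : OK l E t) :
    Set.Infinite {n : ℕ | l ∣ n ∧ ∀ x y : ℤ, 1 ≤ x → 1 ≤ y → Rep n x y →
      ((l : ℤ) ∣ x ∨ ∃ p ∈ E, (p : ℤ) ∣ 36 * x ^ 2 - 1) ∧
      ((l : ℤ) ∣ y ∨ ∃ p ∈ E, (p : ℤ) ∣ 36 * y ^ 2 - 1)} := by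
  rw [Set.infinite_iff_exists_gt]
  intro a
  obtain ⟨X, h1, h2, ⟨m, hm⟩, h4⟩ := many l hl h5 E t (6 * l) ht ⟨l, rfl⟩ hlt h (6 * a + 6)
  have hm0 : 0 ≤ m := by
    by_contra hneg
    push Not at hneg
    have : X ≤ 0 := by
      rw [hm]; exact mul_nonpos_of_nonneg_of_nonpos (by positivity) hneg.le
    linarith
  obtain ⟨m, rfl⟩ := Int.eq_ofNat_of_zero_le hm0
  have hX : X = 6 * ((l * m : ℕ) : ℤ) := by rw [hm]; push_cast; ring
  refine ⟨l * m, ⟨dvd_mul_right _ _, ?_⟩, ?_⟩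
  · intro x y hx hy hr
    rw [hX] at h4
    exact rep_of_ok l hl.pos E (l * m) h4 x y hx hy hr
  · rw [hX] at h1
    zify
    push_cast at h1 ⊢
    linarith

end Pool.Agent.Amplify59
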