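import Mathlib

/-!
# A table of twin primes: for every prime `5 ≤ l ≤ 10 ^ 4` a pair of primes `6 l m - 1`, `6 l m + 1`
-/

set_option autoImplicit false

namespace Pool.Agent.Amplify59

/-- no prime `5 ≤ q ≤ 6 I + 1` divides `M - 1` or `M + 1` -/
def tw (M : ℕ) : ℕ → Bool
  | 0 => true
  | i + 1 => (M % (6 * i + 5) != 1) && ((M % (6 * i + 5) != 6 * i + 4) &&
      ((M % (6 * i + 7) != 1) && ((M % (6 * i + 7) != 6 * i + 6) && tw M i)))

theorem tw_spec (M : ℕ) (I : ℕ) (h : tw M I = true) (i : ℕ) (hi : i < I) :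
    M % (6 * i + 5) ≠ 1 ∧ M % (6 * i + 5) ≠ 6 * i + 4 ∧ M % (6 * i + 7) ≠ 1 ∧
      M % (6 * i + 7) ≠ 6 * i + 6 := by
  induction I with
  | zero => omega
  | succ I ih =>
    simp only [tw, Bool.and_eq_true, bne_iff_ne, ne_eq] at h
    obtain ⟨h1, h2, h3, h4, h5⟩ := h
    rcases Nat.lt_succ_iff_lt_or_eq.1 hi with h6 | h6
    · exact ih h5 h6
    · subst h6; exact ⟨h1, h2, h3, h4⟩

theorem prime_of_tw (M I N : ℕ) (hN : N = M - 1 ∨ N = M + 1) (hM : 6 ∣ M) (h : tw M I = true)
    (h1 : M + 1 < (6 * I + 5) * (6 * I + 5)) (h2 : 6 * I + 2 < M) : N.Prime := by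
  by_contra hnp
  have hN2 : 2 ≤ N := by omega
  have hq := Nat.minFac_prime (show N ≠ 1 by omega)
  have hqd := Nat.minFac_dvd N
  have hq2 : N.minFac * N.minFac ≤ N := by
    have := Nat.minFac_sq_le_self (by omega) hnp
    rwa [pow_two] at this
  set q := N.minFac with hqdef
  have hNlt : N < (6 * I + 5) * (6 * I + 5) := by omega
  have hqlt : q < 6 * I + 5 := by
    by_contra hge
    push Not at hge
    have := Nat.mul_le_mul hge hge
    omega
  have hq5 : ¬ 2 ∣ q ∧ ¬ 3 ∣ q := by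
    constructor <;> intro hd <;> have := hd.trans hqd <;> omega
  have hqge : 2 ≤ q := hq.two_le
  have hmod : (N = M - 1 ∧ M % q = 1) ∨ (N = M + 1 ∧ M % q = q - 1) := by
    obtain ⟨c, hc⟩ := hqd
    rcases hN with h | h
    · left
      refine ⟨h, ?_⟩
      have : M = 1 + q * c := by omega
      rw [this, Nat.add_mul_mod_self_left, Nat.mod_eq_of_lt (by omega)]
    · right
      refine ⟨h, ?_⟩
      have hc0 : 0 < c := by
        rcases Nat.eq_zero_or_pos c with h0 | h0
        · rw [h0] at hc; omega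
        · exact h0
      obtain ⟨e, rfl⟩ : ∃ e, c = e + 1 := ⟨c - 1, by omega⟩
      have : M = (q - 1) + q * e := by
        have h3 : q * (e + 1) = q * e + q := by ring
        omega
      rw [this, Nat.add_mul_mod_self_left, Nat.mod_eq_of_lt (by omega)]
  have hcase : ∃ i, i < I ∧ (q = 6 * i + 5 ∨ q = 6 * i + 7) := by
    have : q % 6 = 1 ∨ q % 6 = 5 := by omega
    rcases this with h6 | h6
    · exact ⟨q / 6 - 1, by omega, Or.inr (by omega)⟩
    · exact ⟨q / 6, by omega, Or.inl (by omega)⟩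
  obtain ⟨i, hi, hqi⟩ := hcase
  obtain ⟨a, b, c, d⟩ := tw_spec M I h i hi
  rcases hqi with hqi | hqi <;> rcases hmod with ⟨-, hm⟩ | ⟨-, hm⟩ <;> rw [hqi] at hm
  · exact a hm
  · exact b (by omega)
  · exact c hm
  · exact d (by omega)

/-- `6 l m ± 1` are primes -/
def good (l m I : ℕ) : Bool :=
  Nat.blt (6 * l * m + 1) ((6 * I + 5) * (6 * I + 5)) &&
    (Nat.blt (6 * I + 2) (6 * l * m) && tw (6 * l * m) I)

theorem good_spec (l m I : ℕ) (h : good l m I = true) :
    (6 * l * m - 1).Prime ∧ (6 * l * m + 1).Prime := by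
  simp only [good, Bool.and_eq_true, Nat.blt_eq] at h
  obtain ⟨h1, h2, h3⟩ := h
  have h6 : 6 ∣ 6 * l * m := ⟨l * m, by ring⟩
  exact ⟨prime_of_tw _ I _ (Or.inl rfl) h6 h3 h1 h2, prime_of_tw _ I _ (Or.inr rfl) h6 h3 h1 h2⟩

/-- a proper divisor from a short list -/
def comp (l : ℕ) : List ℕ → Bool
  | [] => false
  | d :: ds => (l % d == 0) || comp l ds

theorem comp_spec (l : ℕ) (ds : List ℕ) (h : comp l ds = true) (hds : ∀ d ∈ ds, 2 ≤ d ∧ d < l) :
    ¬ l.Prime := by
  induction ds with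
  | nil => simp [comp] at h
  | cons d ds ih =>
    simp only [comp, Bool.or_eq_true, beq_iff_eq] at h
    rcases h with h | h
    · obtain ⟨h2, h3⟩ := hds d (by simp)
      have hd : d ∣ l := Nat.dvd_of_mod_eq_zero h
      intro hp
      rcases (Nat.dvd_prime hp).1 hd with h | h <;> omega
    · exact ih h (fun e he => hds e (by simp [he]))

/-- run through the integers `l, l + 1, ..., l + f - 1` -/
def run (ds : List ℕ) : ℕ → List (ℕ × ℕ × ℕ) → ℕ → Bool
  | 0, _, _ => true
  | f + 1, [], l => comp l ds && run ds f [] (l + 1)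
  | f + 1, (a, m, I) :: L, l =>
    bif Nat.beq a l then good l m I && run ds f L (l + 1)
    else comp l ds && run ds f ((a, m, I) :: L) (l + 1)

theorem run_spec (ds : List ℕ) (f : ℕ) : ∀ (L : List (ℕ × ℕ × ℕ)) (l : ℕ), run ds f L l = true →
    ∀ k, l ≤ k → k < l + f → comp k ds = true ∨ ∃ m I, good k m I = true := by
  induction f with
  | zero => intro L l _ k h1 h2; omega
  | succ f ih =>
    intro L l h k h1 h2
    rcases L with _ | ⟨⟨a, m, I⟩, L⟩
    · simp only [run, Bool.and_eq_true] at h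
      rcases Nat.eq_or_lt_of_le h1 with h3 | h3
      · subst h3; exact Or.inl h.1
      · exact ih [] (l + 1) h.2 k (by omega) (by omega)
    · simp only [run] at h
      rcases hb : Nat.beq a l with _ | _
      · rw [hb] at h
        simp only [cond_false, Bool.and_eq_true] at h
        rcases Nat.eq_or_lt_of_le h1 with h3 | h3
        · subst h3; exact Or.inl h.1
        · exact ih _ (l + 1) h.2 k (by omega) (by omega)
      · rw [hb] at h
        simp only [cond_true, Bool.and_eq_true] at h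
        rcases Nat.eq_or_lt_of_le h1 with h3 | h3
        · subst h3; exact Or.inr ⟨m, I, h.1⟩
        · exact ih _ (l + 1) h.2 k (by omega) (by omega)

/-- the primes below `100` -/
def ps : List ℕ := [2, 3, 5, 7, 11, 13, 17, 19, 23, 29, 31, 37, 41, 43, 47, 53, 59, 61, 67, 71,
  73, 79, 83, 89, 97]

def blk0L : List (ℕ × ℕ × ℕ) := [
  (11, 3, 2), (13, 4, 3), (17, 1, 1), (19, 2, 2), (23, 1, 2), (29, 2, 3), (31, 7, 6), (37, 9, 7),
  (41, 5, 6), (43, 4, 5), (47, 1, 2), (53, 20, 13), (59, 3, 5), (61, 43, 21), (67, 4, 6),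
  (71, 3, 6), (73, 14, 13), (79, 22, 17), (83, 9, 11), (89, 8, 11), (97, 19, 17)]

theorem blk0 : run [2, 3, 5, 7] 93 blk0L 8 = true := by decide +kernel

def blk1L : List (ℕ × ℕ × ℕ) := [
  (101, 7, 11), (103, 1, 4), (107, 1, 4), (109, 8, 12), (113, 4, 8), (127, 24, 22), (131, 5, 10),
  (137, 1, 4), (139, 2, 6), (149, 2, 7), (151, 13, 18), (157, 4, 10), (163, 6, 12), (167, 5, 11),
  (173, 9, 16), (179, 22, 25), (181, 3, 9), (191, 15, 22), (193, 6, 14), (197, 11, 19),
  (199, 3, 10), (211, 7, 15), (223, 5, 13), (227, 20, 27), (229, 5, 13), (233, 6, 15),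
  (239, 7, 16), (241, 3, 11), (251, 3, 11), (257, 9, 19), (263, 14, 24), (269, 10, 21),
  (271, 2, 9), (277, 35, 40), (281, 2, 9), (283, 1, 7), (293, 10, 22), (307, 25, 35),
  (311, 17, 29), (313, 1, 7), (317, 35, 43), (331, 5, 16), (337, 4, 15), (347, 1, 7),
  (349, 18, 32), (353, 15, 29), (359, 12, 26), (367, 25, 39), (373, 1, 8), (379, 2, 11),
  (383, 5, 18), (389, 20, 36), (397, 1, 8), (401, 20, 36), (409, 28, 43), (419, 7, 22),
  (421, 7, 22), (431, 3, 14), (433, 66, 69), (439, 15, 33), (443, 1, 8), (449, 42, 56),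
  (457, 5, 19), (461, 5, 19), (463, 11, 29), (467, 1, 8), (479, 13, 32), (487, 11, 30),
  (491, 3, 15), (499, 13, 33), (503, 4, 18), (509, 5, 20), (521, 13, 33), (523, 35, 55),
  (541, 5, 21), (547, 26, 48), (557, 15, 37), (563, 36, 58), (569, 2, 13), (571, 8, 27),
  (577, 1, 9), (587, 26, 50), (593, 1, 10), (599, 8, 28)]

theorem blk1 : run ps 500 blk1L 101 = true := by decide +kernel

def blk2L : List (ℕ × ℕ × ℕ) := [
  (601, 2, 14), (607, 15, 39), (613, 10, 32), (617, 10, 32), (619, 7, 27), (631, 25, 51),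
  (641, 10, 32), (643, 14, 38), (647, 6, 25), (653, 1, 10), (659, 17, 43), (661, 8, 29),
  (673, 9, 31), (677, 6, 26), (683, 15, 41), (691, 2, 15), (701, 18, 46), (709, 8, 30),
  (719, 2, 15), (727, 61, 86), (733, 19, 48), (739, 18, 47), (743, 16, 44), (751, 2, 15),
  (757, 14, 42), (761, 8, 32), (769, 7, 30), (773, 1, 11), (787, 1, 11), (797, 5, 25),
  (809, 3, 20), (811, 12, 40), (821, 58, 89), (823, 4, 23), (827, 11, 39), (829, 10, 37),
  (839, 2, 16), (853, 39, 74), (857, 6, 29), (859, 8, 34), (863, 34, 70), (877, 21, 55),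
  (881, 10, 38), (883, 4, 24), (887, 14, 45), (907, 1, 12), (911, 18, 52), (919, 47, 85),
  (929, 23, 59), (937, 5, 28), (941, 20, 56), (947, 5, 28), (953, 21, 57), (967, 40, 80),
  (971, 5, 28), (977, 20, 57), (983, 11, 42), (991, 3, 22), (997, 24, 63), (1009, 2, 18),
  (1013, 5, 29), (1019, 45, 87), (1021, 2, 18), (1031, 15, 50), (1033, 1, 13), (1039, 13, 47),
  (1049, 25, 66), (1051, 2, 18), (1061, 13, 48), (1063, 24, 65), (1069, 28, 70), (1087, 5, 30),
  (1091, 7, 35), (1093, 9, 40), (1097, 5, 30)]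

theorem blk2 : run ps 500 blk2L 601 = true := by decide +kernel

def blk3L : List (ℕ × ℕ × ℕ) := [
  (1103, 45, 91), (1109, 3, 23), (1117, 1, 13), (1123, 4, 27), (1129, 7, 36), (1151, 3, 24),
  (1153, 5, 31), (1163, 31, 77), (1171, 8, 39), (1181, 22, 65), (1187, 14, 52), (1193, 36, 84),
  (1201, 17, 58), (1213, 15, 55), (1217, 4, 28), (1223, 6, 35), (1229, 57, 108), (1231, 3, 24),
  (1237, 6, 35), (1249, 3, 25), (1259, 10, 45), (1277, 29, 78), (1279, 7, 38), (1283, 15, 56),
  (1289, 3, 25), (1291, 15, 56), (1297, 14, 55), (1301, 42, 95), (1303, 14, 55), (1307, 36, 88),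
  (1319, 3, 25), (1321, 37, 90), (1327, 4, 29), (1361, 18, 64), (1367, 29, 81), (1373, 11, 50),
  (1381, 13, 54), (1399, 17, 63), (1409, 40, 97), (1423, 1, 15), (1427, 10, 48), (1429, 17, 63),
  (1433, 1, 15), (1439, 22, 72), (1447, 9, 46), (1451, 12, 54), (1453, 10, 49), (1459, 3, 27),
  (1471, 5, 35), (1481, 25, 78), (1483, 4, 31), (1487, 14, 59), (1489, 8, 44), (1493, 15, 61),
  (1499, 2, 22), (1511, 2, 22), (1523, 11, 53), (1531, 7, 42), (1543, 11, 53), (1549, 33, 92),
  (1553, 5, 36), (1559, 5, 36), (1567, 11, 53), (1571, 3, 28), (1579, 28, 86), (1583, 4, 32),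
  (1597, 4, 32)]

theorem blk3 : run ps 500 blk3L 1101 = true := by decide +kernel

def blk4L : List (ℕ × ℕ × ℕ) := [
  (1601, 2, 23), (1607, 4, 32), (1609, 7, 43), (1613, 1, 16), (1619, 2, 23), (1621, 18, 69),
  (1627, 29, 88), (1637, 35, 97), (1657, 20, 74), (1663, 36, 100), (1667, 9, 50), (1669, 15, 64),
  (1693, 16, 67), (1697, 45, 112), (1699, 5, 37), (1709, 2, 24), (1721, 28, 89), (1723, 11, 56),
  (1733, 10, 53), (1741, 23, 81), (1747, 11, 56), (1753, 4, 34), (1759, 22, 80), (1777, 9, 51),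
  (1783, 6, 42), (1787, 5, 38), (1789, 48, 119), (1801, 2, 24), (1811, 8, 49), (1823, 1, 17),
  (1831, 17, 72), (1847, 10, 55), (1861, 18, 74), (1867, 6, 43), (1871, 43, 115), (1873, 6, 43),
  (1877, 14, 66), (1879, 18, 75), (1889, 28, 94), (1901, 7, 47), (1907, 31, 99), (1913, 15, 69),
  (1931, 3, 31), (1933, 9, 54), (1949, 3, 31), (1951, 33, 103), (1973, 4, 36), (1979, 28, 96),
  (1987, 30, 99), (1993, 50, 129), (1997, 9, 54), (1999, 22, 85), (2003, 5, 41), (2011, 27, 95),
  (2017, 4, 36), (2027, 1, 18), (2029, 32, 104), (2039, 15, 71), (2053, 26, 94), (2063, 1, 18),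
  (2069, 52, 134), (2081, 33, 107), (2083, 4, 37), (2087, 10, 59), (2089, 18, 79), (2099, 3, 32)]

theorem blk4 : run ps 500 blk4L 1601 = true := by decide +kernel

def blk5L : List (ℕ × ℕ × ℕ) := [
  (2111, 7, 49), (2113, 5, 42), (2129, 30, 103), (2131, 17, 77), (2137, 1, 19), (2141, 40, 119),
  (2143, 19, 82), (2153, 1, 19), (2161, 2, 27), (2179, 40, 120), (2203, 1, 19), (2207, 26, 97),
  (2213, 11, 63), (2221, 7, 51), (2237, 14, 72), (2239, 10, 61), (2243, 6, 47), (2251, 7, 51),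
  (2267, 21, 89), (2269, 32, 110), (2273, 9, 58), (2281, 7, 51), (2287, 1, 19), (2293, 1, 19),
  (2297, 16, 78), (2309, 28, 103), (2311, 23, 94), (2333, 1, 19), (2339, 23, 94), (2341, 7, 52),
  (2347, 1, 19), (2351, 18, 84), (2357, 21, 90), (2371, 58, 151), (2377, 45, 133), (2381, 2, 28),
  (2383, 4, 40), (2389, 58, 152), (2393, 9, 60), (2399, 8, 56), (2411, 3, 34), (2417, 6, 49),
  (2423, 4, 40), (2437, 49, 141), (2441, 40, 127), (2447, 24, 99), (2459, 13, 73), (2467, 4, 40),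
  (2473, 9, 61), (2477, 11, 67), (2503, 25, 102), (2521, 18, 87), (2531, 38, 126), (2539, 2, 29),
  (2543, 14, 77), (2549, 10, 65), (2551, 15, 80), (2557, 9, 62), (2579, 20, 92), (2591, 42, 134),
  (2593, 10, 65)]

theorem blk5 : run ps 500 blk5L 2101 = true := by decide +kernel

def blk6L : List (ℕ × ℕ × ℕ) := [
  (2609, 15, 80), (2617, 5, 46), (2621, 13, 75), (2633, 11, 69), (2647, 14, 78), (2657, 41, 134),
  (2659, 10, 66), (2663, 11, 70), (2671, 38, 130), (2677, 1, 21), (2683, 5, 47), (2687, 35, 125),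
  (2689, 5, 47), (2693, 55, 157), (2699, 7, 56), (2707, 41, 136), (2711, 2, 30), (2713, 24, 104),
  (2719, 7, 56), (2729, 3, 37), (2731, 5, 47), (2741, 20, 95), (2749, 5, 48), (2753, 15, 83),
  (2767, 9, 64), (2777, 35, 127), (2789, 10, 68), (2791, 28, 114), (2797, 21, 99),
  (2801, 58, 164), (2803, 4, 43), (2819, 2, 30), (2833, 14, 81), (2837, 16, 87), (2843, 9, 65),
  (2851, 2, 30), (2857, 9, 65), (2861, 5, 48), (2879, 5, 49), (2887, 20, 98), (2897, 35, 130),
  (2903, 1, 22), (2909, 3, 38), (2917, 5, 49), (2927, 11, 73), (2939, 3, 38), (2953, 5, 49),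
  (2957, 6, 54), (2963, 14, 83), (2969, 5, 49), (2971, 7, 59), (2999, 13, 80), (3001, 2, 31),
  (3011, 18, 95), (3019, 12, 77), (3023, 80, 200), (3037, 21, 103), (3041, 8, 63),
  (3049, 27, 117), (3061, 15, 87), (3067, 4, 45), (3079, 52, 163), (3083, 20, 101), (3089, 5, 50)]

theorem blk6 : run ps 500 blk6L 2601 = true := by decide +kernel

def blk7L : List (ℕ × ℕ × ℕ) := [
  (3109, 2, 32), (3119, 8, 64), (3121, 23, 109), (3137, 5, 51), (3163, 16, 92), (3167, 14, 86),
  (3169, 30, 126), (3181, 13, 83), (3187, 65, 185), (3191, 10, 73), (3203, 4, 46),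
  (3209, 17, 95), (3217, 20, 103), (3221, 2, 32), (3229, 2, 32), (3251, 25, 116),
  (3253, 40, 147), (3257, 1, 23), (3259, 10, 73), (3271, 78, 206), (3299, 15, 90), (3301, 3, 40),
  (3307, 1, 23), (3313, 15, 91), (3319, 2, 33), (3323, 19, 102), (3329, 8, 66), (3331, 53, 171),
  (3343, 4, 47), (3347, 11, 78), (3359, 37, 144), (3361, 25, 118), (3371, 27, 123),
  (3373, 31, 132), (3389, 10, 75), (3391, 10, 75), (3407, 1, 23), (3413, 1, 24), (3433, 21, 109),
  (3449, 2, 34), (3457, 44, 159), (3461, 3, 41), (3463, 70, 201), (3467, 9, 72), (3469, 10, 76),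
  (3491, 62, 190), (3499, 3, 41), (3511, 3, 42), (3517, 6, 59), (3527, 21, 111), (3529, 38, 149),
  (3533, 14, 90), (3539, 13, 87), (3541, 7, 64), (3547, 34, 141), (3557, 19, 106),
  (3559, 13, 87), (3571, 42, 158), (3581, 45, 164), (3583, 11, 81), (3593, 1, 24)]

theorem blk7 : run ps 500 blk7L 3101 = true := by decide +kernel

def blk8L : List (ℕ × ℕ × ℕ) := [
  (3607, 26, 125), (3613, 10, 77), (3617, 35, 145), (3623, 1, 24), (3631, 12, 85),
  (3637, 11, 81), (3643, 15, 95), (3659, 8, 70), (3671, 7, 65), (3673, 1, 24), (3677, 61, 193),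
  (3691, 5, 55), (3697, 54, 182), (3701, 5, 55), (3709, 5, 55), (3719, 27, 129), (3727, 11, 82),
  (3733, 30, 136), (3739, 33, 143), (3761, 30, 137), (3767, 9, 75), (3769, 22, 117),
  (3779, 60, 194), (3793, 16, 100), (3797, 4, 50), (3803, 51, 179), (3821, 7, 66), (3823, 5, 56),
  (3833, 10, 80), (3847, 29, 136), (3851, 7, 67), (3853, 50, 179), (3863, 24, 124),
  (3877, 9, 76), (3881, 3, 44), (3889, 3, 44), (3907, 11, 84), (3911, 5, 57), (3917, 4, 51),
  (3919, 32, 144), (3923, 1, 25), (3929, 2, 36), (3931, 18, 108), (3943, 30, 140), (3947, 5, 57),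
  (3967, 20, 115), (3989, 102, 260), (4001, 15, 100), (4003, 14, 96), (4007, 24, 126),
  (4013, 29, 139), (4019, 33, 148), (4021, 10, 82), (4027, 14, 97), (4049, 55, 192),
  (4051, 28, 137), (4057, 4, 52), (4073, 9, 78), (4079, 140, 308), (4091, 18, 110),
  (4093, 16, 104), (4099, 25, 130)]

theorem blk8 : run ps 500 blk8L 3601 = true := by decide +kernel

def blk9L : List (ℕ × ℕ × ℕ) := [
  (4111, 2, 37), (4127, 11, 87), (4129, 2, 37), (4133, 66, 213), (4139, 2, 37), (4153, 1, 26),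
  (4157, 10, 83), (4159, 5, 59), (4177, 44, 175), (4201, 3, 45), (4211, 8, 75), (4217, 1, 26),
  (4219, 13, 95), (4229, 53, 193), (4231, 3, 46), (4241, 2, 37), (4243, 5, 59), (4253, 10, 84),
  (4259, 13, 96), (4261, 2, 37), (4271, 7, 70), (4273, 21, 122), (4283, 11, 88), (4289, 33, 153),
  (4297, 14, 100), (4327, 10, 85), (4337, 4, 53), (4339, 2, 38), (4349, 7, 71), (4357, 60, 208),
  (4363, 21, 123), (4373, 6, 66), (4391, 15, 104), (4397, 4, 54), (4409, 28, 143), (4421, 7, 71),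
  (4423, 30, 148), (4441, 13, 98), (4447, 1, 27), (4451, 47, 186), (4457, 5, 61),
  (4463, 15, 105), (4481, 12, 94), (4483, 11, 90), (4493, 24, 134), (4507, 5, 61), (4513, 5, 61),
  (4517, 41, 175), (4519, 7, 72), (4523, 39, 171), (4547, 1, 27), (4549, 30, 150), (4561, 7, 73),
  (4567, 29, 148), (4583, 26, 141), (4591, 10, 87), (4597, 1, 27)]

theorem blk9 : run ps 500 blk9L 4101 = true := by decide +kernel

def blk10L : List (ℕ × ℕ × ℕ) := [
  (4603, 6, 68), (4621, 10, 87), (4637, 31, 154), (4639, 15, 107), (4643, 56, 208),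
  (4649, 52, 200), (4651, 3, 48), (4657, 1, 28), (4663, 14, 104), (4673, 15, 108), (4679, 3, 48),
  (4691, 5, 62), (4703, 24, 137), (4721, 3, 48), (4723, 29, 151), (4729, 25, 140),
  (4733, 40, 177), (4751, 12, 97), (4759, 40, 178), (4783, 14, 105), (4787, 25, 141),
  (4789, 37, 172), (4793, 21, 129), (4799, 22, 132), (4801, 23, 135), (4813, 71, 238),
  (4817, 10, 89), (4831, 17, 117), (4861, 7, 75), (4871, 2, 40), (4877, 120, 312), (4889, 3, 49),
  (4903, 4, 57), (4909, 2, 40), (4919, 13, 103), (4931, 28, 151), (4933, 34, 167),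
  (4937, 14, 107), (4943, 10, 90), (4951, 43, 188), (4957, 9, 86), (4967, 39, 179),
  (4969, 2, 40), (4973, 14, 107), (4987, 4, 57), (4993, 51, 206), (4999, 5, 64), (5003, 5, 64),
  (5009, 15, 112), (5011, 3, 50), (5021, 22, 135), (5023, 1, 29), (5039, 5, 64), (5051, 8, 82),
  (5059, 5, 65), (5077, 19, 126), (5081, 3, 50), (5087, 14, 109), (5099, 13, 105)]

theorem blk10 : run ps 500 blk10L 4601 = true := by decide +kernel

def blk11L : List (ℕ × ℕ × ℕ) := [
  (5101, 15, 113), (5107, 10, 92), (5113, 50, 206), (5119, 13, 105), (5147, 44, 194),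
  (5153, 5, 65), (5167, 10, 92), (5171, 12, 101), (5179, 7, 77), (5189, 55, 218), (5197, 1, 29),
  (5209, 3, 51), (5227, 26, 150), (5231, 12, 102), (5233, 10, 93), (5237, 30, 161),
  (5261, 18, 125), (5273, 9, 89), (5279, 7, 78), (5281, 10, 93), (5297, 21, 136), (5303, 10, 94),
  (5309, 7, 78), (5323, 59, 228), (5333, 40, 188), (5347, 16, 119), (5351, 13, 107),
  (5381, 55, 222), (5387, 1, 30), (5393, 10, 94), (5399, 5, 67), (5407, 1, 30), (5413, 5, 67),
  (5417, 10, 95), (5419, 2, 42), (5431, 2, 42), (5437, 6, 73), (5441, 7, 79), (5443, 4, 60),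
  (5449, 10, 95), (5471, 13, 109), (5477, 4, 60), (5479, 15, 117), (5483, 50, 213),
  (5501, 17, 125), (5503, 35, 179), (5507, 19, 132), (5519, 53, 220), (5521, 15, 117),
  (5527, 20, 135), (5531, 28, 160), (5557, 31, 169), (5563, 16, 121), (5569, 22, 143),
  (5573, 54, 224), (5581, 23, 146), (5591, 40, 193)]

theorem blk11 : run ps 500 blk11L 5101 = true := by decide +kernel

def blk12L : List (ℕ × ℕ × ℕ) := [
  (5623, 14, 114), (5639, 3, 53), (5641, 38, 189), (5647, 40, 194), (5651, 22, 144),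
  (5653, 55, 227), (5657, 9, 92), (5659, 25, 153), (5669, 25, 153), (5683, 26, 157),
  (5689, 15, 119), (5693, 1, 30), (5701, 10, 97), (5711, 18, 131), (5717, 1, 31),
  (5737, 55, 229), (5741, 33, 177), (5743, 41, 198), (5749, 90, 293), (5779, 25, 155),
  (5783, 9, 93), (5791, 2, 44), (5801, 23, 149), (5807, 1, 31), (5813, 6, 76), (5821, 22, 146),
  (5827, 1, 31), (5839, 17, 128), (5843, 15, 121), (5849, 112, 330), (5851, 10, 98),
  (5857, 16, 125), (5861, 57, 236), (5867, 9, 93), (5869, 20, 140), (5879, 10, 99),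
  (5881, 2, 44), (5897, 50, 221), (5903, 20, 140), (5923, 30, 172), (5927, 14, 117),
  (5939, 7, 83), (5953, 4, 63), (5981, 7, 83), (5987, 110, 331), (6007, 4, 63), (6011, 8, 89),
  (6029, 22, 148), (6037, 4, 63), (6043, 20, 142), (6047, 9, 95), (6053, 6, 77), (6067, 5, 71),
  (6073, 6, 78), (6079, 57, 240), (6089, 98, 315), (6091, 37, 193)]

theorem blk12 : run ps 500 blk12L 5601 = true := by decide +kernel

def blk13L : List (ℕ × ℕ × ℕ) := [
  (6101, 13, 115), (6113, 20, 142), (6121, 10, 101), (6131, 7, 84), (6133, 25, 160),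
  (6143, 11, 106), (6151, 15, 124), (6163, 34, 187), (6173, 4, 64), (6197, 14, 120),
  (6199, 10, 101), (6203, 49, 225), (6211, 7, 85), (6217, 14, 120), (6221, 75, 279),
  (6229, 5, 72), (6247, 50, 228), (6257, 24, 158), (6263, 35, 191), (6269, 25, 161),
  (6271, 30, 177), (6277, 19, 141), (6287, 31, 180), (6299, 3, 56), (6301, 18, 137),
  (6311, 27, 168), (6317, 4, 65), (6323, 6, 79), (6329, 52, 234), (6337, 36, 195),
  (6343, 19, 141), (6353, 76, 283), (6359, 17, 134), (6361, 22, 152), (6367, 41, 208),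
  (6373, 1, 32), (6379, 8, 92), (6389, 5, 73), (6397, 45, 219), (6421, 5, 73), (6427, 9, 98),
  (6449, 27, 170), (6451, 27, 170), (6469, 5, 73), (6473, 49, 230), (6481, 7, 87), (6491, 8, 93),
  (6521, 25, 165), (6529, 12, 114), (6547, 26, 168), (6551, 12, 114), (6553, 4, 66),
  (6563, 46, 224), (6569, 17, 136), (6571, 8, 93), (6577, 6, 81), (6581, 28, 175), (6599, 5, 74)]

theorem blk13 : run ps 500 blk13L 6101 = true := by decide +kernel

def blk14L : List (ℕ × ℕ × ℕ) := [
  (6607, 46, 225), (6619, 15, 128), (6637, 24, 163), (6653, 4, 66), (6659, 22, 156),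
  (6661, 8, 94), (6673, 1, 33), (6679, 2, 47), (6689, 25, 167), (6691, 12, 115), (6701, 13, 120),
  (6703, 11, 111), (6709, 78, 295), (6719, 2, 47), (6733, 10, 106), (6737, 14, 125),
  (6761, 32, 190), (6763, 66, 272), (6779, 70, 281), (6781, 2, 47), (6791, 25, 168),
  (6793, 39, 210), (6803, 11, 111), (6823, 6, 82), (6827, 20, 151), (6829, 15, 130),
  (6833, 4, 67), (6841, 30, 185), (6857, 1, 33), (6863, 1, 33), (6869, 27, 175), (6871, 13, 122),
  (6883, 20, 151), (6899, 3, 58), (6907, 15, 131), (6911, 5, 76), (6917, 5, 76), (6947, 31, 189),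
  (6949, 13, 122), (6959, 65, 274), (6961, 20, 152), (6967, 30, 186), (6971, 38, 210),
  (6977, 9, 102), (6983, 24, 167), (6991, 28, 180), (6997, 1, 34), (7001, 42, 221),
  (7013, 10, 108), (7019, 12, 118), (7027, 5, 76), (7039, 8, 97), (7043, 26, 174),
  (7057, 16, 137), (7069, 23, 164), (7079, 12, 119)]

theorem blk14 : run ps 500 blk14L 6601 = true := by decide +kernel

def blk15L : List (ℕ × ℕ × ℕ) := [
  (7103, 65, 277), (7109, 45, 231), (7121, 2, 48), (7127, 4, 69), (7129, 7, 91), (7151, 38, 212),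
  (7159, 37, 210), (7177, 36, 207), (7187, 19, 151), (7193, 29, 186), (7207, 6, 85),
  (7211, 2, 49), (7213, 31, 193), (7219, 2, 49), (7229, 7, 92), (7237, 40, 219), (7243, 16, 139),
  (7247, 5, 77), (7253, 10, 110), (7283, 69, 289), (7297, 1, 35), (7307, 9, 104),
  (7309, 25, 174), (7321, 3, 60), (7331, 68, 288), (7333, 4, 70), (7349, 5, 78), (7351, 12, 121),
  (7369, 5, 78), (7393, 4, 70), (7411, 27, 182), (7417, 10, 111), (7433, 11, 116), (7451, 7, 93),
  (7457, 30, 193), (7459, 85, 325), (7477, 26, 180), (7481, 27, 183), (7487, 4, 70),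
  (7489, 25, 176), (7499, 23, 169), (7507, 14, 132), (7517, 51, 252), (7523, 1, 35),
  (7529, 32, 200), (7537, 16, 141), (7541, 23, 170), (7547, 11, 117), (7549, 17, 146),
  (7559, 38, 218), (7561, 18, 150), (7573, 5, 79), (7577, 20, 159), (7583, 35, 210),
  (7589, 3, 61), (7591, 18, 151)]

theorem blk15 : run ps 500 blk15L 7101 = true := by decide +kernel

def blk16L : List (ℕ × ℕ × ℕ) := [
  (7603, 4, 71), (7607, 110, 373), (7621, 7, 94), (7639, 12, 123), (7643, 14, 133),
  (7649, 35, 211), (7669, 20, 160), (7673, 19, 156), (7681, 22, 167), (7687, 4, 71),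
  (7691, 47, 245), (7699, 32, 202), (7703, 20, 160), (7717, 35, 212), (7723, 19, 156),
  (7727, 35, 212), (7741, 23, 172), (7753, 64, 287), (7757, 5, 80), (7759, 3, 62),
  (7789, 15, 139), (7793, 6, 88), (7817, 51, 257), (7823, 41, 231), (7829, 77, 317),
  (7841, 37, 220), (7853, 19, 157), (7867, 9, 108), (7873, 35, 214), (7877, 6, 88),
  (7879, 13, 130), (7883, 19, 158), (7901, 7, 96), (7907, 25, 181), (7919, 22, 170),
  (7927, 10, 115), (7933, 35, 215), (7937, 60, 281), (7949, 57, 274), (7951, 5, 81),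
  (7963, 1, 36), (7993, 4, 73), (8009, 3, 63), (8011, 115, 392), (8017, 14, 136),
  (8039, 28, 193), (8053, 34, 213), (8059, 23, 175), (8069, 13, 132), (8081, 18, 155),
  (8087, 61, 286), (8089, 3, 63), (8093, 40, 232)]

theorem blk16 : run ps 500 blk16L 7601 = true := by decide +kernel

def blk17L : List (ℕ × ℕ × ℕ) := [
  (8101, 20, 164), (8111, 48, 254), (8117, 56, 275), (8123, 49, 257), (8147, 14, 138),
  (8161, 38, 227), (8167, 14, 138), (8171, 5, 82), (8179, 17, 152), (8191, 12, 128),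
  (8209, 50, 261), (8219, 25, 185), (8221, 35, 219), (8231, 5, 82), (8233, 39, 231),
  (8237, 30, 203), (8243, 21, 170), (8263, 6, 91), (8269, 7, 98), (8273, 11, 123),
  (8287, 14, 139), (8291, 32, 210), (8293, 40, 235), (8297, 6, 91), (8311, 13, 134),
  (8317, 61, 290), (8329, 28, 197), (8353, 20, 167), (8363, 21, 171), (8369, 48, 258),
  (8377, 1, 37), (8387, 5, 83), (8389, 18, 158), (8419, 13, 135), (8423, 34, 218),
  (8429, 28, 198), (8431, 25, 187), (8443, 115, 402), (8447, 15, 145), (8461, 2, 53),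
  (8467, 4, 75), (8501, 22, 176), (8513, 95, 367), (8521, 2, 53), (8527, 26, 192),
  (8537, 109, 393), (8539, 60, 292), (8543, 4, 75), (8563, 44, 250), (8573, 1, 37),
  (8581, 17, 156), (8597, 14, 141), (8599, 42, 245)]

theorem blk17 : run ps 500 blk17L 8101 = true := by decide +kernel

def blk18L : List (ℕ × ℕ × ℕ) := [
  (8609, 10, 119), (8623, 4, 75), (8627, 109, 396), (8629, 28, 200), (8641, 3, 65),
  (8647, 6, 93), (8663, 6, 93), (8669, 28, 201), (8677, 14, 142), (8681, 3, 66), (8689, 15, 147),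
  (8693, 11, 126), (8699, 50, 269), (8707, 30, 208), (8713, 50, 269), (8719, 3, 66),
  (8731, 7, 101), (8737, 5, 85), (8741, 7, 101), (8747, 4, 76), (8753, 15, 148), (8761, 22, 179),
  (8779, 10, 121), (8783, 5, 85), (8803, 34, 223), (8807, 11, 127), (8819, 40, 242),
  (8821, 18, 162), (8831, 17, 158), (8837, 45, 257), (8839, 8, 108), (8849, 2, 54),
  (8861, 87, 358), (8863, 54, 282), (8867, 30, 210), (8887, 4, 77), (8893, 21, 176),
  (8923, 91, 368), (8929, 7, 102), (8933, 16, 154), (8941, 13, 139), (8951, 5, 86),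
  (8963, 105, 396), (8969, 8, 109), (8971, 22, 181), (8999, 45, 259), (9001, 2, 54),
  (9007, 9, 116), (9011, 35, 229), (9013, 10, 122), (9029, 47, 266), (9041, 7, 102),
  (9043, 26, 198), (9049, 40, 245), (9059, 2, 55), (9067, 1, 39), (9091, 28, 206)]

theorem blk18 : run ps 500 blk18L 8601 = true := by decide +kernel

def blk19L : List (ℕ × ℕ × ℕ) := [
  (9103, 64, 311), (9109, 5, 87), (9127, 16, 156), (9133, 6, 95), (9137, 9, 117),
  (9151, 12, 135), (9157, 5, 87), (9161, 5, 87), (9173, 6, 95), (9181, 10, 123), (9187, 31, 218),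
  (9199, 28, 207), (9203, 1, 39), (9209, 8, 110), (9221, 13, 141), (9227, 9, 117), (9239, 3, 68),
  (9241, 18, 166), (9257, 10, 124), (9277, 1, 39), (9281, 10, 124), (9283, 4, 78), (9293, 6, 96),
  (9311, 2, 55), (9319, 2, 55), (9323, 16, 157), (9337, 14, 147), (9341, 53, 287),
  (9343, 9, 118), (9349, 10, 124), (9371, 7, 104), (9377, 60, 306), (9391, 97, 389),
  (9397, 4, 79), (9403, 5, 88), (9413, 1, 39), (9419, 28, 209), (9421, 10, 125), (9431, 2, 56),
  (9433, 1, 39), (9437, 21, 181), (9439, 18, 168), (9461, 10, 125), (9463, 4, 79),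
  (9467, 136, 463), (9473, 26, 202), (9479, 7, 105), (9491, 5, 89), (9497, 86, 369),
  (9511, 12, 138), (9521, 5, 89), (9533, 51, 284), (9539, 28, 211), (9547, 14, 149),
  (9551, 22, 187), (9587, 41, 256)]

theorem blk19 : run ps 500 blk19L 9101 = true := by decide +kernel

def blk20L : List (ℕ × ℕ × ℕ) := [
  (9601, 7, 106), (9613, 14, 149), (9619, 17, 165), (9623, 50, 283), (9629, 22, 188),
  (9631, 3, 69), (9643, 4, 80), (9649, 25, 200), (9661, 2, 56), (9677, 15, 155), (9679, 12, 139),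
  (9689, 5, 90), (9697, 9, 120), (9719, 22, 188), (9721, 15, 156), (9733, 25, 201),
  (9739, 8, 114), (9743, 60, 312), (9749, 5, 90), (9767, 1, 40), (9769, 27, 209), (9781, 2, 57),
  (9787, 24, 198), (9791, 72, 342), (9803, 6, 99), (9811, 3, 70), (9817, 20, 181), (9829, 3, 70),
  (9833, 5, 90), (9839, 67, 331), (9851, 2, 57), (9857, 14, 151), (9859, 17, 167), (9871, 3, 70),
  (9883, 19, 177), (9887, 11, 134), (9901, 43, 266), (9907, 1, 40), (9923, 10, 128),
  (9929, 7, 107), (9931, 27, 211), (9941, 2, 57), (9949, 8, 115), (9967, 179, 545),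
  (9973, 34, 237)]

theorem blk20 : run ps 400 blk20L 9601 = true := by decide +kernel

/-- for every prime `5 ≤ l ≤ 10 ^ 4` there is a pair of twin primes around a multiple of `6 l` -/
theorem exists_twin (l : ℕ) (hl : l.Prime) (h5 : 5 ≤ l) (h4 : l ≤ 10 ^ 4) :
    ∃ m, (6 * l * m - 1).Prime ∧ (6 * l * m + 1).Prime := by
  have fin : ∀ (ds : List ℕ) (f lo : ℕ) (L : List (ℕ × ℕ × ℕ)), run ds f L lo = true →
      (∀ d ∈ ds, 2 ≤ d ∧ d < l) → lo ≤ l → l < lo + f →
      ∃ m, (6 * l * m - 1).Prime ∧ (6 * l * m + 1).Prime := by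
    intro ds f lo L hr hds h1 h2
    rcases run_spec ds f L lo hr l h1 h2 with h | ⟨m, I, h⟩
    · exact absurd hl (comp_spec l ds h hds)
    · exact ⟨m, good_spec l m I h⟩
  have hps : 100 < l → ∀ d ∈ ps, 2 ≤ d ∧ d < l := by
    intro h d hd
    have : ∀ d ∈ ps, 2 ≤ d ∧ d < 100 := by decide
    have := this d hd
    omega
  have hlt : l = 5 ∨ l = 7 ∨ 8 ≤ l := by
    rcases Nat.lt_or_ge l 8 with h | h
    · interval_cases l
      · left; rfl
      · exact absurd hl (by decide)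
      · right; left; rfl
    · right; right; exact h
  rcases hlt with rfl | rfl | h8
  · exact ⟨1, by norm_num⟩
  · exact ⟨1, by norm_num⟩
  rcases Nat.lt_or_ge l 101 with h | h
  · refine fin _ _ _ _ blk0 ?_ h8 h
    intro d hd
    have : ∀ d ∈ [2, 3, 5, 7], 2 ≤ d ∧ d < 8 := by decide
    have := this d hd
    omega
  rcases Nat.lt_or_ge l 601 with h' | h1
  · exact fin _ _ _ _ blk1 (hps (by omega)) (by omega) h'
  rcases Nat.lt_or_ge l 1101 with h' | h2
  · exact fin _ _ _ _ blk2 (hps (by omega)) (by omega) h'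
  rcases Nat.lt_or_ge l 1601 with h' | h3
  · exact fin _ _ _ _ blk3 (hps (by omega)) (by omega) h'
  rcases Nat.lt_or_ge l 2101 with h' | h4
  · exact fin _ _ _ _ blk4 (hps (by omega)) (by omega) h'
  rcases Nat.lt_or_ge l 2601 with h' | h5
  · exact fin _ _ _ _ blk5 (hps (by omega)) (by omega) h'
  rcases Nat.lt_or_ge l 3101 with h' | h6
  · exact fin _ _ _ _ blk6 (hps (by omega)) (by omega) h'
  rcases Nat.lt_or_ge l 3601 with h' | h7
  · exact fin _ _ _ _ blk7 (hps (by omega)) (by omega) h'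
  rcases Nat.lt_or_ge l 4101 with h' | h8
  · exact fin _ _ _ _ blk8 (hps (by omega)) (by omega) h'
  rcases Nat.lt_or_ge l 4601 with h' | h9
  · exact fin _ _ _ _ blk9 (hps (by omega)) (by omega) h'
  rcases Nat.lt_or_ge l 5101 with h' | h10
  · exact fin _ _ _ _ blk10 (hps (by omega)) (by omega) h'
  rcases Nat.lt_or_ge l 5601 with h' | h11
  · exact fin _ _ _ _ blk11 (hps (by omega)) (by omega) h'
  rcases Nat.lt_or_ge l 6101 with h' | h12
  · exact fin _ _ _ _ blk12 (hps (by omega)) (by omega) h'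
  rcases Nat.lt_or_ge l 6601 with h' | h13
  · exact fin _ _ _ _ blk13 (hps (by omega)) (by omega) h'
  rcases Nat.lt_or_ge l 7101 with h' | h14
  · exact fin _ _ _ _ blk14 (hps (by omega)) (by omega) h'
  rcases Nat.lt_or_ge l 7601 with h' | h15
  · exact fin _ _ _ _ blk15 (hps (by omega)) (by omega) h'
  rcases Nat.lt_or_ge l 8101 with h' | h16
  · exact fin _ _ _ _ blk16 (hps (by omega)) (by omega) h'
  rcases Nat.lt_or_ge l 8601 with h' | h17
  · exact fin _ _ _ _ blk17 (hps (by omega)) (by omega) h'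
  rcases Nat.lt_or_ge l 9101 with h' | h18
  · exact fin _ _ _ _ blk18 (hps (by omega)) (by omega) h'
  rcases Nat.lt_or_ge l 9601 with h' | h19
  · exact fin _ _ _ _ blk19 (hps (by omega)) (by omega) h'
  exact fin _ _ _ _ blk20 (hps (by omega)) (by omega) (by omega)

end Pool.Agent.Amplify59
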