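import Mathlib
import Pool.Agent.Amplify59.Reps
import Pool.Agent.Amplify59.Table

/-!
# Twin prime form problem: representations in multiples of a prime `l`

One `n` divisible by the prime `l` with all representations in multiples of `l` gives infinitely
many (`part1`); such `n` exist for all primes `l ≤ 10 ^ 4`.

`D_l(z + 1/z) = z^l + 1/z^l` maps a good `6 n` to a good `6 n'`: all prime factors of
`D_l(t)^2 - 1` not dividing `t^2 - 1` are `± 1 mod 6 l`. Start values: twin primes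
`6 l m - 1`, `6 l m + 1`.
-/

set_option autoImplicit false

namespace Pool.Agent.Amplify59.PrimeModuli

open Pool.Agent.Amplify59

/-- `n = 6xy + x + y`, `6xy + x - y`, `6xy - x + y` or `6xy - x - y` -/
def Rep (n : ℕ) (x y : ℤ) : Prop :=
  (n : ℤ) = 6 * x * y + x + y ∨ (n : ℤ) = 6 * x * y + x - y ∨
    (n : ℤ) = 6 * x * y - x + y ∨ (n : ℤ) = 6 * x * y - x - y

/-- part 1 -/
theorem part1 (l : ℕ) (hl : l.Prime) (h5 : 5 ≤ l)
    (h : ∃ n₀ : ℕ, 0 < n₀ ∧ l ∣ n₀ ∧ ∀ x y : ℤ, 1 ≤ x → 1 ≤ y → Rep n₀ x y →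
      (l : ℤ) ∣ x ∧ (l : ℤ) ∣ y) :
    Set.Infinite {n : ℕ | l ∣ n ∧ ∀ x y : ℤ, 1 ≤ x → 1 ≤ y → Rep n x y →
      (l : ℤ) ∣ x ∧ (l : ℤ) ∣ y} := by
  obtain ⟨n₀, h0, h1, h2⟩ := h
  have hok := ok_of_rep l n₀ h0 h1 h2
  have h3 : (3 : ℤ) ≤ 6 * n₀ := by
    have : (1 : ℤ) ≤ n₀ := by exact_mod_cast h0
    linarith
  have h4 : (6 * l : ℤ) ∣ 6 * n₀ := mul_dvd_mul_left _ (Int.natCast_dvd_natCast.mpr h1)
  refine (infinite_of_ok l hl h5 ∅ _ h3 h4 hok).mono ?_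
  rintro n ⟨ha, hb⟩
  refine ⟨ha, fun x y hx hy hr => ?_⟩
  obtain ⟨h5, h6⟩ := hb x y hx hy hr
  refine ⟨?_, ?_⟩
  · rcases h5 with h | ⟨p, hp, -⟩
    · exact h
    · exact absurd hp (by simp)
  · rcases h6 with h | ⟨p, hp, -⟩
    · exact h
    · exact absurd hp (by simp)

/-- no representations of the mean of twin primes -/
theorem no_rep (n : ℕ) (h1 : (6 * n - 1).Prime) (h2 : (6 * n + 1).Prime) (x y : ℤ) (hx : 1 ≤ x)
    (hy : 1 ≤ y) : ¬ Rep n x y := by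
  have key : ∀ (σ : ℤ) (N : ℕ), N.Prime → (N : ℤ) = 6 * n + σ → ∀ τ₁ τ₂ : ℤ,
      (τ₁ = 1 ∨ τ₁ = -1) → (τ₂ = 1 ∨ τ₂ = -1) → 6 * (n : ℤ) + σ ≠ (6 * x + τ₁) * (6 * y + τ₂) := by
    intro σ N hN hNσ τ₁ τ₂ h1 h2 heq
    rw [← hNσ] at heq
    obtain ⟨a, ha⟩ := Int.eq_ofNat_of_zero_le (show 0 ≤ 6 * x + τ₁ by
      rcases h1 with rfl | rfl <;> linarith)
    obtain ⟨b, hb⟩ := Int.eq_ofNat_of_zero_le (show 0 ≤ 6 * y + τ₂ by
      rcases h2 with rfl | rfl <;> linarith)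
    have ha4 : 4 < (a : ℤ) := by rw [← ha]; rcases h1 with rfl | rfl <;> linarith
    have hb4 : 4 < (b : ℤ) := by rw [← hb]; rcases h2 with rfl | rfl <;> linarith
    rw [ha, hb] at heq
    have hab : N = a * b := by exact_mod_cast heq
    rw [hab] at hN
    exact Nat.not_prime_mul (by omega) (by omega) hN
  have hn : 0 < n := by
    rcases Nat.eq_zero_or_pos n with h | h
    · subst h; exact absurd h1 (by decide)
    · exact h
  have e1 : ((6 * n - 1 : ℕ) : ℤ) = 6 * n + -1 := by push_cast [Nat.cast_sub (by omega : 1 ≤ 6 * n)]; ring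
  have e2 : ((6 * n + 1 : ℕ) : ℤ) = 6 * n + 1 := by push_cast; ring
  rintro (h | h | h | h)
  · exact key 1 _ h2 e2 1 1 (Or.inl rfl) (Or.inl rfl) (by rw [h]; ring)
  · exact key (-1) _ h1 e1 (-1) 1 (Or.inr rfl) (Or.inl rfl) (by rw [h]; ring)
  · exact key (-1) _ h1 e1 1 (-1) (Or.inl rfl) (Or.inr rfl) (by rw [h]; ring)
  · exact key 1 _ h2 e2 (-1) (-1) (Or.inr rfl) (Or.inr rfl) (by rw [h]; ring)

open Pool.Agent.SmallMod59 in
/-- the primes `2` and `3` -/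
theorem small6 : Set.Infinite {n : ℕ | Good 6 0 n} := by
  refine frame 6 (3 * 3959 ^ 2) (2 * 3 * 773 * 13141 * 1059877)
    (fun x s => 36 * s * (16 * x ^ 2 - 527)) (by norm_num) ?_ (by norm_num) ?_ ?_ ?_ ?_ 0
  · rintro ⟨t, ht⟩
    rcases Nat.lt_or_ge t (6857 + 1) with h | h
    · have : t * t ≤ 6857 * 6857 := Nat.mul_le_mul (by omega) (by omega)
      omega
    · have : (6857 + 1) * (6857 + 1) ≤ t * t := Nat.mul_le_mul h h
      omega
  · intro x s; ring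
  · intro x s; exact ⟨36 * (16 * x ^ 2 - 527), by ring⟩
  · intro x s hs
    have : (16 * x ^ 2 - 527 : ℤ) ≠ 0 := by omega
    positivity
  · intro p hp hB x s h hd
    exact prime6 p hp hB x s (by push_cast at h; linarith) hd

/-- part 2 -/
theorem part2 (l : ℕ) (hl : l.Prime) (h4 : l ≤ 10 ^ 4) :
    Set.Infinite {n : ℕ | ∀ x y : ℤ, 1 ≤ x → 1 ≤ y → Rep n x y →
      (l : ℤ) ∣ x ∧ (l : ℤ) ∣ y} := by
  rcases Nat.lt_or_ge l 5 with h5 | h5
  · have h6 : l ∣ 6 := by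
      have : l = 2 ∨ l = 3 := by
        interval_cases l
        · exact absurd hl (by decide)
        · exact absurd hl (by decide)
        · left; rfl
        · right; rfl
        · exact absurd hl (by decide)
      rcases this with rfl | rfl <;> decide
    refine small6.mono ?_
    rintro n ⟨-, hb⟩ x y hx hy hr
    obtain ⟨h1, h2, -, -⟩ := hb x y hx hy hr
    have hz : (l : ℤ) ∣ ((6 : ℕ) : ℤ) := Int.natCast_dvd_natCast.mpr h6
    exact ⟨hz.trans h1, hz.trans h2⟩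
  · obtain ⟨m, hm1, hm2⟩ := exists_twin l hl h5 h4
    have hm0 : 0 < m := by
      rcases Nat.eq_zero_or_pos m with h | h
      · subst h; exact absurd hm1 (by simp; decide)
      · exact h
    have := part1 l hl h5 ⟨l * m, Nat.mul_pos hl.pos hm0, dvd_mul_right _ _, ?_⟩
    · exact this.mono (fun n hn => hn.2)
    · intro x y hx hy hr
      exact absurd hr (no_rep (l * m) (by rw [← mul_assoc]; exact hm1)
        (by rw [← mul_assoc]; exact hm2) x y hx hy)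

/-- part 3 -/
theorem part3 (l : ℕ) (hl : l.Prime) (h5 : 5 ≤ l) (Y : ℕ) :
    ∃ E : Finset ℕ, (∀ p ∈ E, p.Prime ∧ Y < p) ∧
      Set.Infinite {n : ℕ | ∀ x y : ℤ, 1 ≤ x → 1 ≤ y → Rep n x y →
        ((l : ℤ) ∣ x ∨ ∃ p ∈ E, (p : ℤ) ∣ 36 * x ^ 2 - 1) ∧
        ((l : ℤ) ∣ y ∨ ∃ p ∈ E, (p : ℤ) ∣ 36 * y ^ 2 - 1)} := by
  set t : ℤ := 6 * l * Y.factorial with ht
  have hpos : (1 : ℤ) ≤ l * Y.factorial := by
    have h1 : 0 < l * Y.factorial := Nat.mul_pos hl.pos (Nat.factorial_pos Y)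
    exact_mod_cast h1
  have ht3 : 3 ≤ t := by rw [ht]; linarith
  have ht0 : t ^ 2 - 1 ≠ 0 := by
    have : 3 * 3 ≤ t * t := mul_le_mul ht3 ht3 (by norm_num) (by linarith)
    intro h
    have e : t ^ 2 = t * t := by ring
    linarith
  refine ⟨(t ^ 2 - 1).natAbs.primeFactors, ?_, ?_⟩
  · intro p hp
    have hpp := Nat.prime_of_mem_primeFactors hp
    refine ⟨hpp, ?_⟩
    by_contra hle
    have h1 : (p : ℤ) ∣ t ^ 2 - 1 := Int.natCast_dvd.2 (Nat.dvd_of_mem_primeFactors hp)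
    have h2 : (p : ℤ) ∣ t := by
      rw [ht]
      exact (Int.natCast_dvd_natCast.mpr ((hpp.dvd_factorial).2 (by omega))).mul_left _
    have h3 : (p : ℤ) ∣ 1 := by
      have := dvd_sub (h2.trans (dvd_pow_self t (by norm_num : (2 : ℕ) ≠ 0))) h1
      simpa using this
    have h4 : p ∣ 1 := by exact_mod_cast h3
    exact hpp.one_lt.ne' (Nat.dvd_one.1 h4)
  · have hok : OK l (t ^ 2 - 1).natAbs.primeFactors t := by
      intro p hp hpd
      left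
      rw [Nat.mem_primeFactors]
      exact ⟨hp, Int.natCast_dvd.1 hpd, by simpa using ht0⟩
    exact (infinite_of_ok l hl h5 _ t ht3 ⟨Y.factorial, by rw [ht]⟩ hok).mono
      (fun n hn => hn.2)

theorem result (l : ℕ) (hl : l.Prime) (Y : ℕ) :
    ∃ E : Finset ℕ, (∀ p ∈ E, p.Prime ∧ Y < p) ∧ (l ≤ 10 ^ 4 → E = ∅) ∧
      Set.Infinite {n : ℕ | ∀ x y : ℤ, 1 ≤ x → 1 ≤ y →
        ((n : ℤ) = 6 * x * y + x + y ∨ (n : ℤ) = 6 * x * y + x - y ∨
          (n : ℤ) = 6 * x * y - x + y ∨ (n : ℤ) = 6 * x * y - x - y) →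
        ((l : ℤ) ∣ x ∨ ∃ p ∈ E, (p : ℤ) ∣ 36 * x ^ 2 - 1) ∧
        ((l : ℤ) ∣ y ∨ ∃ p ∈ E, (p : ℤ) ∣ 36 * y ^ 2 - 1)} := by
  rcases Nat.lt_or_ge (10 ^ 4) l with h | h
  · obtain ⟨E, h1, h2⟩ := part3 l hl (by omega) Y
    exact ⟨E, h1, fun h' => absurd h' (by omega), h2⟩
  · refine ⟨∅, by simp, fun _ => rfl, ?_⟩
    refine (part2 l hl h).mono ?_
    intro n hn x y hx hy hr
    obtain ⟨h1, h2⟩ := hn x y hx hy hr
    exact ⟨Or.inl h1, Or.inl h2⟩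

end Pool.Agent.Amplify59.PrimeModuli
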